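import Mathlib

/-!
# The orientation game: definitions

The players orient the edges of the complete graph on the vertex set `V` one after the other. A position is the finite
set `D` of the arcs `(u, v)` chosen so far (`(u, v)` is the edge `uv` with the direction from `u` to `v`).
-/

set_option autoImplicit false

namespace Pool.Agent.H186.OG

open Classical

/-- `T` is a tournament on the vertex set `κ`: no loops, and exactly one of the two arcs for every pair -/
def IsTour {κ : Type} (T : κ → κ → Prop) : Prop :=
  (∀ a, ¬ T a a) ∧ ∀ a b, a ≠ b → (T a b ↔ ¬ T b a)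

/-- the edge `uv` is not oriented in the position `D` -/
def Free {V : Type} (D : Finset (V × V)) (u v : V) : Prop := u ≠ v ∧ (u, v) ∉ D ∧ (v, u) ∉ D

/-- the digraph `D` contains a copy of `T` -/
def HasCopy {κ V : Type} (T : κ → κ → Prop) (D : Finset (V × V)) : Prop :=
  ∃ f : κ → V, Function.Injective f ∧ ∀ a b, T a b → (f a, f b) ∈ D

/-- OBreaker has a winning strategy from the position `D` if it is OMaker's turn (`true`), respectively OBreaker's turn
(`false`). `bad` is the property of the final digraph for which OMaker wins. -/
inductive OBWins {V : Type} (bad : Finset (V × V) → Prop) : Bool → Finset (V × V) → Prop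
  | done (b : Bool) (D : Finset (V × V)) (h : ∀ u v, ¬ Free D u v) (hb : ¬ bad D) : OBWins bad b D
  | maker (D : Finset (V × V)) (h : ∃ u v, Free D u v)
      (hs : ∀ u v, Free D u v → OBWins bad false (insert (u, v) D)) : OBWins bad true D
  | breaker (D : Finset (V × V)) (u v : V) (h : Free D u v)
      (hs : OBWins bad true (insert (u, v) D)) : OBWins bad false D

/-- OMaker has a winning strategy from the position `D` if it is OMaker's turn (`true`), respectively OBreaker's turn
(`false`). -/
inductive OMWins {V : Type} (bad : Finset (V × V) → Prop) : Bool → Finset (V × V) → Prop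
  | done (b : Bool) (D : Finset (V × V)) (h : ∀ u v, ¬ Free D u v) (hb : bad D) : OMWins bad b D
  | maker (D : Finset (V × V)) (u v : V) (h : Free D u v)
      (hs : OMWins bad false (insert (u, v) D)) : OMWins bad true D
  | breaker (D : Finset (V × V)) (h : ∃ u v, Free D u v)
      (hs : ∀ u v, Free D u v → OMWins bad true (insert (u, v) D)) : OMWins bad false D

/-- OBreaker has a winning strategy in `Or(T, n)` (OMaker moves first) -/
def OBreakerWins (n : ℕ) {k : ℕ} (T : Fin k → Fin k → Prop) : Prop :=
  OBWins (HasCopy T) true (∅ : Finset (Fin n × Fin n))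

/-- OMaker has a winning strategy in `Or(T, n)` (OMaker moves first) -/
def OMakerWins (n : ℕ) {k : ℕ} (T : Fin k → Fin k → Prop) : Prop :=
  OMWins (HasCopy T) true (∅ : Finset (Fin n × Fin n))

/-- `k_o(n)`: the largest `k` such that OMaker has a winning strategy in `Or(T, n)` for every tournament `T` on `k`
vertices -/
noncomputable def ko (n : ℕ) : ℕ :=
  sSup {k : ℕ | ∀ T : Fin k → Fin k → Prop, IsTour T → OMakerWins n T}

theorem not_both {V : Type} (bad : Finset (V × V) → Prop) (b : Bool) (D : Finset (V × V))
    (h : OBWins bad b D) : ¬ OMWins bad b D := by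
  induction h with
  | done b D h hb =>
    intro h2
    cases h2 with
    | done _ _ _ hb2 => exact hb hb2
    | maker _ u v hf _ => exact h u v hf
    | breaker _ hf _ => obtain ⟨u, v, hf⟩ := hf; exact h u v hf
  | maker D h hs ih =>
    intro h2
    cases h2 with
    | done _ _ hn _ => obtain ⟨u, v, hf⟩ := h; exact hn u v hf
    | maker _ u v hf h3 => exact ih u v hf h3
  | breaker D u v h hs ih =>
    intro h2
    cases h2 with
    | done _ _ hn _ => exact hn u v h
    | breaker _ _ h3 => exact ih (h3 u v h)

theorem OBWins.mono {V : Type} {bad bad' : Finset (V × V) → Prop} (hbb : ∀ D, bad' D → bad D) {b : Bool}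
    {D : Finset (V × V)} (h : OBWins bad b D) : OBWins bad' b D := by
  induction h with
  | done b D h hb => exact OBWins.done b D h (fun h' => hb (hbb D h'))
  | maker D h hs ih => exact OBWins.maker D h ih
  | breaker D u v h hs ih => exact OBWins.breaker D u v h ih

end Pool.Agent.H186.OG
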