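import Pool.Agent.H186.OG.Win

/-!
# The numbers
-/

set_option autoImplicit false

namespace Pool.Agent.H186.OG

open Classical Finset

theorem exists_L (η : ℝ) (hη : 0 < η) : ∃ L0 : ℝ, ∀ L : ℝ, L0 ≤ L → 3840 * L ^ 3 ≤ (2 : ℝ) ^ (η * L) := by
  have hb : 0 < Real.log 2 * η := mul_pos (Real.log_pos (by norm_num)) hη
  have h1 := (isLittleO_pow_exp_pos_mul_atTop 3 hb).bound (show (0 : ℝ) < 1 / 3840 by norm_num)
  obtain ⟨L1, hL1⟩ := Filter.eventually_atTop.1 h1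
  refine ⟨max L1 0, fun L hL => ?_⟩
  have h2 := hL1 L ((le_max_left _ _).trans hL)
  have h3 : 0 ≤ L := (le_max_right _ _).trans hL
  rw [Real.norm_of_nonneg (by positivity), Real.norm_of_nonneg (Real.exp_pos _).le] at h2
  rw [Real.rpow_def_of_pos (by norm_num : (0 : ℝ) < 2), ← mul_assoc]
  linarith

theorem log_y (δ : ℝ) (h0 : 0 ≤ δ) (h1 : δ ≤ 1) : Real.log 2 / 2 - δ ≤ Real.log ((2 - δ) / √2) := by
  have h2 : (0 : ℝ) < 2 - δ := by linarith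
  have h3 : (0 : ℝ) < √2 := Real.sqrt_pos.2 (by norm_num)
  rw [Real.log_div h2.ne' h3.ne', Real.log_sqrt (by norm_num)]
  have h4 : (2 - δ) = 2 * (1 - δ / 2) := by ring
  have h5 : (0 : ℝ) < 1 - δ / 2 := by linarith
  rw [h4, Real.log_mul (by norm_num) h5.ne']
  have h6 := Real.one_sub_inv_le_log_of_pos h5
  have h7 : -δ ≤ 1 - (1 - δ / 2)⁻¹ := by
    rw [le_sub_iff_add_le, ← le_sub_iff_add_le', sub_neg_eq_add]
    rw [inv_le_iff_one_le_mul₀ h5]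
    nlinarith
  linarith

theorem numA (c L t : ℝ) (hc3 : 3 ≤ c) (hc4 : c ≤ 4) (hL : 0 ≤ L) (ht0 : 0 ≤ t) (ht1 : t < 1) :
    (c ^ 2 - 4 * c) * L ^ 2 - 29 * L - 7 ≤ (c * L + t) ^ 2 - 4 * (c * L + t) * L - 7 * (c * L + t) := by
  have h1 : 0 ≤ (t * L) * (2 * c - 4) := mul_nonneg (mul_nonneg ht0 hL) (by linarith)
  have h2 : 0 ≤ (29 - 7 * c) * L := mul_nonneg (by linarith) hL
  have h3 : (c * L + t) ^ 2 - 4 * (c * L + t) * L - 7 * (c * L + t) - ((c ^ 2 - 4 * c) * L ^ 2 - 29 * L - 7) =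
      (t * L) * (2 * c - 4) + t ^ 2 + (29 - 7 * c) * L + 7 * (1 - t) := by ring
  have h4 := sq_nonneg t
  linarith

theorem numB (η L d : ℝ) (hη0 : 0 < η) (hη1 : η ≤ 1 / 2) (hL : 3 ≤ L) (hd : 2 / 3 * (1 - η) * L < d + 1) :
    4 / 3 * (1 - η) ^ 2 * L ^ 2 - 4 * L ≤ 3 * d ^ 2 := by
  have h1 : 1 ≤ 2 / 3 * (1 - η) * L := by
    have h2 : 2 / 3 * (1 / 2) * L ≤ 2 / 3 * (1 - η) * L := by
      apply mul_le_mul_of_nonneg_right _ (by linarith)
      linarith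
    linarith
  have h2 : (2 / 3 * (1 - η) * L - 1) ^ 2 ≤ d ^ 2 := by
    apply pow_le_pow_left₀ _ (by linarith)
    linarith
  have h3 : 3 * (2 / 3 * (1 - η) * L - 1) ^ 2 = 4 / 3 * (1 - η) ^ 2 * L ^ 2 - 4 * ((1 - η) * L) + 3 := by ring
  have h4 : (1 - η) * L ≤ L := by
    have : 0 ≤ η * L := by positivity
    linarith
  linarith

theorem numC (c κ0 η L : ℝ) (hκ0 : κ0 = c ^ 2 - 4 * c + 4 / 3) (hη2 : η ≤ 3 * κ0 / 16) :
    κ0 / 2 * L ^ 2 ≤ (c ^ 2 - 4 * c) * L ^ 2 + 4 / 3 * (1 - η) ^ 2 * L ^ 2 := by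
  have h1 : κ0 / 2 ≤ (c ^ 2 - 4 * c) + 4 / 3 * (1 - η) ^ 2 := by
    have h2 : 4 / 3 * (1 - η) ^ 2 = 4 / 3 - 8 / 3 * η + 4 / 3 * η ^ 2 := by ring
    have h3 := sq_nonneg η
    linarith
  have h2 := mul_le_mul_of_nonneg_right h1 (sq_nonneg L)
  linarith

theorem numD (κ0 L : ℝ) (hκ : 0 < κ0) (k2 : 86 / κ0 ≤ L) (hL : 0 ≤ L) : 43 * L ≤ κ0 / 2 * L ^ 2 := by
  rw [div_le_iff₀ hκ] at k2
  have h1 := mul_le_mul_of_nonneg_right k2 hL
  have h2 : κ0 / 2 * L ^ 2 = L * κ0 * L / 2 := by ring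
  linarith

theorem numE (c κ0 η L k d : ℝ) (hκ0 : κ0 = c ^ 2 - 4 * c + 4 / 3) (hκ : 0 < κ0) (hc3 : 3 ≤ c) (hc4 : c ≤ 4)
    (hη0 : 0 < η) (hη1 : η ≤ 1 / 2) (hη2 : η ≤ 3 * κ0 / 16) (k2 : 86 / κ0 ≤ L) (k3 : 3 ≤ L)
    (hk1 : c * L ≤ k) (hk2 : k < c * L + 1) (hd0 : 0 ≤ d) (hd2 : 2 / 3 * (1 - η) * L < d + 1) :
    3 + 3 * k ≤ -2 * k * L + k * (k - 1) / 2 + (3 * d * d + d) / 2 := by
  have h1 := numA c L (k - c * L) hc3 hc4 (by linarith) (by linarith) (by linarith)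
  have h2 := numB η L d hη0 hη1 k3 hd2
  have h3 := numC c κ0 η L hκ0 hη2
  have h4 := numD κ0 L hκ k2 (by linarith)
  have h5 : c * L + (k - c * L) = k := by ring
  rw [h5] at h1
  have h6 : k * (k - 1) / 2 = (k ^ 2 - k) / 2 := by ring
  have h7 : 3 * d * d = 3 * d ^ 2 := by ring
  rw [h6, h7]
  linarith

theorem breaker_ceil (c : ℝ) (hc : 2 + √(8 / 3) < c) (hc4 : c ≤ 4) : ∃ L0 : ℝ, 1 ≤ L0 ∧ ∀ n : ℕ,
    L0 ≤ Real.logb 2 n → ∀ k : ℕ, k = ⌈c * Real.logb 2 n⌉₊ → ∀ T : Fin k → Fin k → Prop, IsTour T →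
    OBreakerWins n T := by
  obtain ⟨κ0, hκ0⟩ : ∃ κ0 : ℝ, κ0 = c ^ 2 - 4 * c + 4 / 3 := ⟨_, rfl⟩
  have hs0 : 0 ≤ √(8 / 3 : ℝ) := Real.sqrt_nonneg _
  have hs1 : √(8 / 3 : ℝ) ^ 2 = 8 / 3 := Real.sq_sqrt (by norm_num)
  have hκ : 0 < κ0 := by
    rw [hκ0]
    nlinarith
  have hc3 : 3 ≤ c := by
    have h1 : (1 : ℝ) ≤ √(8 / 3) := by
      rw [show (1 : ℝ) = √1 by simp]
      exact Real.sqrt_le_sqrt (by norm_num)
    linarith
  obtain ⟨η, hη⟩ : ∃ η : ℝ, η = min (1 / 2) (3 * κ0 / 16) := ⟨_, rfl⟩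
  have hη0 : 0 < η := by
    rw [hη]
    exact lt_min (by norm_num) (by positivity)
  have hη1 : η ≤ 1 / 2 := by rw [hη]; exact min_le_left _ _
  have hη2 : η ≤ 3 * κ0 / 16 := by rw [hη]; exact min_le_right _ _
  obtain ⟨L1, hL1⟩ := exists_L η hη0
  refine ⟨max L1 (max (86 / κ0) 3), le_max_of_le_right (le_max_of_le_right (by norm_num)), ?_⟩
  intro n hn k hk T hT
  obtain ⟨L, hL⟩ : ∃ L : ℝ, L = Real.logb 2 n := ⟨_, rfl⟩
  rw [← hL] at hn hk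
  have k1 : L1 ≤ L := (le_max_left _ _).trans hn
  have k2 : 86 / κ0 ≤ L := (le_max_left _ _).trans ((le_max_right _ _).trans hn)
  have k3 : 3 ≤ L := (le_max_right _ _).trans ((le_max_right _ _).trans hn)
  have hn0 : 0 < n := by
    rcases Nat.eq_zero_or_pos n with h | h
    · exfalso
      rw [h] at hL
      norm_num at hL
      linarith
    · exact h
  have hnr : (0 : ℝ) < n := by exact_mod_cast hn0
  have hnL : (n : ℝ) = (2 : ℝ) ^ L := by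
    rw [hL, Real.rpow_logb (by norm_num) (by norm_num) hnr]
  have hcL : 0 ≤ c * L := by positivity
  have hk1 : c * L ≤ k := by rw [hk]; exact Nat.le_ceil _
  have hk2 : (k : ℝ) < c * L + 1 := by rw [hk]; exact Nat.ceil_lt_add_one hcL
  obtain ⟨d, hd⟩ : ∃ d : ℕ, d = ⌊2 / 3 * (1 - η) * L⌋₊ := ⟨_, rfl⟩
  have hgL : 0 ≤ 2 / 3 * (1 - η) * L := mul_nonneg (mul_nonneg (by norm_num) (by linarith)) (by linarith)
  have hd1 : (d : ℝ) ≤ 2 / 3 * (1 - η) * L := by rw [hd]; exact Nat.floor_le hgL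
  have hd2 : 2 / 3 * (1 - η) * L < d + 1 := by rw [hd]; exact Nat.lt_floor_add_one _
  have hd0 : (0 : ℝ) ≤ d := Nat.cast_nonneg _
  have hηL : 0 ≤ η * L := mul_nonneg hη0.le (by linarith)
  have hdL : (d : ℝ) ≤ 2 / 3 * L := by linarith
  have hcL4 : c * L ≤ 4 * L := mul_le_mul_of_nonneg_right hc4 (by linarith)
  have hcL3 : 3 * L ≤ c * L := mul_le_mul_of_nonneg_right hc3 (by linarith)
  have hk5 : (k : ℝ) ≤ 5 * L := by linarith
  have hk0 : (0 : ℝ) ≤ k := Nat.cast_nonneg _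
  have h2L := hL1 L k1
  have hx0 : (0 : ℝ) < √2 := Real.sqrt_pos.2 (by norm_num)
  have hxx : √2 * √2 = (2 : ℝ) := Real.mul_self_sqrt (by norm_num)
  have hx1 : (1 : ℝ) ≤ √2 := by nlinarith
  have hx14 : √2 ≤ (1.42 : ℝ) := by
    rw [Real.sqrt_le_left (by norm_num)]
    norm_num
  -- the size of `δ`
  obtain ⟨δ, hδ⟩ : ∃ δ : ℝ, δ = 16 * k * (√2 ^ (3 * d) / n) := ⟨_, rfl⟩
  have hδ0 : 0 ≤ δ := by rw [hδ]; positivity
  have hratio : √2 ^ (3 * d) / n ≤ 1 / (2 : ℝ) ^ (η * L) := by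
    have e1 : √2 ^ (3 * d) = (2 : ℝ) ^ (3 / 2 * (d : ℝ)) := by
      rw [Real.sqrt_eq_rpow, ← Real.rpow_natCast, ← Real.rpow_mul (by norm_num)]
      congr 1
      push_cast
      ring
    have e2 : (2 : ℝ) ^ (3 / 2 * (d : ℝ)) ≤ (2 : ℝ) ^ ((1 - η) * L) :=
      Real.rpow_le_rpow_of_exponent_le (by norm_num) (by linarith)
    have e3 : (2 : ℝ) ^ L = (2 : ℝ) ^ ((1 - η) * L) * (2 : ℝ) ^ (η * L) := by
      rw [← Real.rpow_add (by norm_num)]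
      congr 1
      ring
    have e4 : (0 : ℝ) < (2 : ℝ) ^ (η * L) := by positivity
    rw [hnL, e1, e3, div_le_div_iff₀ (by positivity) e4, one_mul]
    exact mul_le_mul_of_nonneg_right e2 e4.le
  have hδL : δ * (48 * L ^ 2) ≤ 1 := by
    have e4 : (0 : ℝ) < (2 : ℝ) ^ (η * L) := by positivity
    have e5 : δ ≤ 16 * (5 * L) * (1 / (2 : ℝ) ^ (η * L)) := by
      rw [hδ]
      apply mul_le_mul _ hratio (by positivity) (by positivity)
      linarith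
    have e6 : 16 * (5 * L) * (1 / (2 : ℝ) ^ (η * L)) * (48 * L ^ 2) = 3840 * L ^ 3 / (2 : ℝ) ^ (η * L) := by
      field_simp
      ring
    calc δ * (48 * L ^ 2) ≤ 16 * (5 * L) * (1 / (2 : ℝ) ^ (η * L)) * (48 * L ^ 2) := by gcongr
      _ = 3840 * L ^ 3 / (2 : ℝ) ^ (η * L) := e6
      _ ≤ 1 := by
        rw [div_le_one e4]
        exact h2L
  have hL2 : 9 ≤ L ^ 2 := by
    have := mul_le_mul k3 k3 (by norm_num) (by linarith : (0 : ℝ) ≤ L)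
    have h1 : L ^ 2 = L * L := by ring
    linarith
  have hδ1 : δ ≤ 1 / 432 := by
    have h1 := mul_le_mul_of_nonneg_left hL2 hδ0
    have h2 : δ * (48 * L ^ 2) = 48 * (δ * L ^ 2) := by ring
    linarith
  have hyle : (2 - δ) / √2 ≤ √2 := by
    rw [div_le_iff₀ hx0, hxx]
    linarith
  have hy1 : 1 ≤ (2 - δ) / √2 := by
    rw [le_div_iff₀ hx0]
    linarith
  have hxy : √2 * ((2 - δ) / √2) = 2 - δ := by field_simp
  have hy0 : 0 < (2 - δ) / √2 := by linarith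
  unfold OBreakerWins
  apply wins_true T d (n : ℝ) (√2) ((2 - δ) / √2) δ hT hnr (by rw [Fintype.card_fin]) hx1 hy1 hδ0 (by linarith)
    (by linarith) hxx.le hxy.le
  · rw [Fintype.card_fin, hδ]
    have e1 : √2 ^ (2 * d) * ((2 - 16 * k * (√2 ^ (3 * d) / n)) / √2) ^ d / n ≤ √2 ^ (3 * d) / n := by
      rw [← hδ]
      have e2 : ((2 - δ) / √2) ^ d ≤ √2 ^ d := pow_le_pow_left₀ hy0.le hyle d
      have e3 : √2 ^ (3 * d) = √2 ^ (2 * d) * √2 ^ d := by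
        rw [← pow_add]
        congr 1
        ring
      rw [e3]
      gcongr
    exact mul_le_mul_of_nonneg_left e1 (by positivity)
  · rw [Fintype.card_fin]
    have e1 : (2 * d + 1 : ℝ) ≤ k := by linarith
    exact_mod_cast e1
  · rw [Fintype.card_fin]
    have hk1' : 1 ≤ k := by
      have e1 : (1 : ℝ) ≤ k := by linarith
      exact_mod_cast e1
    rw [← Real.log_lt_log_iff (by positivity) (by positivity)]
    rw [Real.log_mul (by norm_num) (Real.exp_pos _).ne', Real.log_exp, Real.log_mul (by positivity) (by positivity),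
      Real.log_mul (by positivity) (by positivity), Real.log_pow, Real.log_pow, Real.log_pow,
      Real.log_div one_ne_zero hnr.ne', Real.log_one, Real.log_sqrt (by norm_num)]
    have e0 := log_y δ hδ0 (by linarith)
    have e1 : Real.log n = L * Real.log 2 := by
      rw [hnL, Real.log_rpow (by norm_num)]
    have e2 : Real.log 4 = 2 * Real.log 2 := by
      rw [show (4 : ℝ) = 2 ^ 2 by norm_num, Real.log_pow]
      norm_num
    have e3 : (0.69 : ℝ) < Real.log 2 := by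
      have := Real.log_two_gt_d9
      linarith
    have e4 : ((k * (k - 1) : ℕ) : ℝ) = (k : ℝ) * (k - 1) := by
      rw [Nat.cast_mul, Nat.cast_sub hk1']
      norm_num
    rw [e1, e2, e4]
    push_cast
    obtain ⟨ℓ, hℓ⟩ : ∃ ℓ : ℝ, ℓ = Real.log 2 := ⟨_, rfl⟩
    rw [← hℓ] at e0 e3 ⊢
    obtain ⟨q, hq⟩ : ∃ q : ℝ, q = 3 * (d : ℝ) * d + d := ⟨_, rfl⟩
    have hq0 : 0 ≤ q := by rw [hq]; positivity
    have hdd : (d : ℝ) * d ≤ 2 / 3 * L * (2 / 3 * L) := mul_le_mul hdL hdL hd0 (by linarith)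
    have hLL : L ≤ L ^ 2 := by
      have := mul_le_mul_of_nonneg_right k3 (show (0 : ℝ) ≤ L by linarith)
      have h1 : L ^ 2 = L * L := by ring
      linarith
    have hq1 : q ≤ 3 * L ^ 2 := by
      rw [hq]
      have h1 : 2 / 3 * L * (2 / 3 * L) = 4 / 9 * L ^ 2 := by ring
      linarith
    have hqδ : q * δ ≤ 1 / 2 := by
      have h1 := mul_le_mul_of_nonneg_right hq1 hδ0
      have h2 : δ * (48 * L ^ 2) = 16 * (3 * L ^ 2 * δ) := by ring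
      linarith
    have e5 : q * (ℓ / 2 - δ) ≤ q * Real.log ((2 - δ) / √2) := mul_le_mul_of_nonneg_left e0 hq0
    rw [← hq]
    -- the main inequality
    have e6 := numE c κ0 η L k d hκ0 hκ hc3 hc4 hη0 hη1 hη2 k2 k3 hk1 hk2 hd0 hd2
    rw [← hq] at e6
    have e7 : ℓ * (3 + 3 * (k : ℝ)) ≤ ℓ * (-2 * k * L + k * (k - 1) / 2 + q / 2) :=
      mul_le_mul_of_nonneg_left e6 (by linarith)
    have e8 : 0.69 * (k : ℝ) ≤ ℓ * k := mul_le_mul_of_nonneg_right e3.le hk0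
    linarith

end Pool.Agent.H186.OG
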