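import Pool.Agent.H186.OG.Mm

/-!
# The lines and their weights

A line is a partial labelling `g : V → Option κ`. It contains an arc if both end points are labelled.
-/

set_option autoImplicit false

namespace Pool.Agent.H186.OG

open Classical Finset

variable {V κ : Type}

/-- the line `g` contains (both end points of) the arc `e` -/
def has (g : V → Option κ) (e : V × V) : Prop := (g e.1).isSome ∧ (g e.2).isSome

/-- the direction of `e` agrees with the labels -/
def okk (T : κ → κ → Prop) (g : V → Option κ) (e : V × V) : Prop :=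
  ∀ a b, g e.1 = some a → g e.2 = some b → T a b

/-- the arcs of `D` contained in the line -/
noncomputable def Dg (D : Finset (V × V)) (g : V → Option κ) : Finset (V × V) := D.filter fun e => has g e

/-- all arcs contained in the line have the right direction -/
def alive (T : κ → κ → Prop) (D : Finset (V × V)) (g : V → Option κ) : Prop := ∀ e ∈ D, okk T g e

/-- the number of labelled points -/
noncomputable def sup' [Fintype V] (g : V → Option κ) : ℕ := #(univ.filter fun u => (g u).isSome)

/-- the weight of a line -/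
noncomputable def wt [Fintype V] (T : κ → κ → Prop) (d : ℕ) (N x y : ℝ) (D : Finset (V × V)) (g : V → Option κ) : ℝ :=
  if alive T D g then (1 / N) ^ sup' g * x ^ #(Dg D g) * y ^ mm d (Dg D g) else 0

/-- an end point of `e` has degree at least `2 d` in the line -/
def sat (d : ℕ) (D : Finset (V × V)) (g : V → Option κ) (e : V × V) : Prop :=
  2 * d ≤ #(at' (Dg D g) e.1) ∨ 2 * d ≤ #(at' (Dg D g) e.2)

theorem pairs_card (A : Finset (V × V)) (Q : Finset V)
    (h : ∀ u ∈ Q, ∀ v ∈ Q, u ≠ v → (u, v) ∈ A ∨ (v, u) ∈ A) : #Q * (#Q - 1) ≤ 2 * #A := by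
  have h1 : Q.offDiag ⊆ A ∪ A.image Prod.swap := by
    intro p hp
    rw [mem_offDiag] at hp
    rw [mem_union, mem_image]
    rcases h p.1 hp.1 p.2 hp.2.1 hp.2.2 with h2 | h2
    · exact Or.inl h2
    · exact Or.inr ⟨(p.2, p.1), h2, rfl⟩
  have h2 := card_le_card h1
  have h3 := card_union_le A (A.image Prod.swap)
  have h4 : #(A.image Prod.swap) ≤ #A := card_image_le
  rw [offDiag_card] at h2
  have h5 : #Q * (#Q - 1) = #Q * #Q - #Q := by rw [Nat.mul_sub, mul_one]
  omega

theorem mm_lower [Fintype V] (d k : ℕ) (A : Finset (V × V)) (P : Finset V) (hP : #P = k) (hk : 2 * d + 1 ≤ k)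
    (h : ∀ u ∈ P, ∀ v ∈ P, u ≠ v → (u, v) ∈ A ∨ (v, u) ∈ A) : 3 * d * d + d ≤ 2 * mm d A := by
  obtain ⟨S, hS⟩ := exists_mm d A
  have h1 : #(P \ S) * (#(P \ S) - 1) ≤ 2 * #(av A S) := by
    apply pairs_card
    intro u hu v hv huv
    rw [mem_sdiff] at hu hv
    unfold av
    rw [mem_filter, mem_filter]
    rcases h u hu.1 v hv.1 huv with h2 | h2
    · exact Or.inl ⟨h2, hu.2, hv.2⟩
    · exact Or.inr ⟨h2, hv.2, hu.2⟩
  have h2 : k ≤ #S + #(P \ S) := by
    have h3 : P ⊆ S ∪ (P \ S) := by
      intro u hu
      rw [mem_union, mem_sdiff]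
      tauto
    have h4 := card_le_card h3
    have h5 := card_union_le S (P \ S)
    omega
  have h3 := hs_lower d k #S #(P \ S) h2 hk
  omega

theorem Dg_insert_has (D : Finset (V × V)) (g : V → Option κ) (e : V × V) (h : has g e) :
    Dg (insert e D) g = insert e (Dg D g) := by
  unfold Dg
  rw [filter_insert, if_pos h]

theorem Dg_insert_not (D : Finset (V × V)) (g : V → Option κ) (e : V × V) (h : ¬ has g e) :
    Dg (insert e D) g = Dg D g := by
  unfold Dg
  rw [filter_insert, if_neg h]

theorem okk_of_not_has (T : κ → κ → Prop) (g : V → Option κ) (e : V × V) (h : ¬ has g e) : okk T g e := by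
  intro a b ha hb
  exact absurd ⟨by rw [ha]; rfl, by rw [hb]; rfl⟩ h

theorem alive_insert (T : κ → κ → Prop) (D : Finset (V × V)) (g : V → Option κ) (e : V × V) :
    alive T (insert e D) g ↔ okk T g e ∧ alive T D g := by
  unfold alive
  rw [forall_mem_insert]

variable [Fintype V] (T : κ → κ → Prop) (d : ℕ) (N x y : ℝ)

theorem wt_nonneg (hN : 0 < N) (hx : 0 ≤ x) (hy : 0 ≤ y) (D : Finset (V × V)) (g : V → Option κ) :
    0 ≤ wt T d N x y D g := by
  unfold wt
  split_ifs
  · positivity
  · exact le_rfl

theorem wt_insert_not_has (D : Finset (V × V)) (g : V → Option κ) (e : V × V) (h : ¬ has g e) :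
    wt T d N x y (insert e D) g = wt T d N x y D g := by
  unfold wt
  rw [Dg_insert_not D g e h, alive_insert]
  have h1 := okk_of_not_has T g e h
  simp only [h1, true_and]

theorem wt_insert_not_ok (D : Finset (V × V)) (g : V → Option κ) (e : V × V) (h : ¬ okk T g e) :
    wt T d N x y (insert e D) g = 0 := by
  unfold wt
  rw [if_neg]
  rw [alive_insert]
  tauto

theorem wt_insert_le (hN : 0 < N) (hx : 1 ≤ x) (hy : 1 ≤ y) (D : Finset (V × V)) (g : V → Option κ) (e : V × V) :
    wt T d N x y (insert e D) g ≤ wt T d N x y D g * (x * y) := by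
  have hx0 : 0 < x := by linarith
  have hy0 : 0 < y := by linarith
  have hxy : 1 ≤ x * y := by nlinarith
  by_cases h : has g e
  · by_cases h2 : alive T (insert e D) g
    · have h3 : alive T D g := ((alive_insert T D g e).1 h2).2
      unfold wt
      rw [if_pos h2, if_pos h3, Dg_insert_has D g e h]
      have h4 : x ^ #(insert e (Dg D g)) ≤ x ^ #(Dg D g) * x := by
        rw [← pow_succ]
        exact pow_le_pow_right₀ hx (card_insert_le _ _)
      have h5 : y ^ mm d (insert e (Dg D g)) ≤ y ^ mm d (Dg D g) * y := by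
        rw [← pow_succ]
        exact pow_le_pow_right₀ hy (mm_insert_le _ _ _)
      have h6 : 0 ≤ (1 / N) ^ sup' g := by positivity
      calc (1 / N) ^ sup' g * x ^ #(insert e (Dg D g)) * y ^ mm d (insert e (Dg D g))
          ≤ (1 / N) ^ sup' g * (x ^ #(Dg D g) * x) * (y ^ mm d (Dg D g) * y) := by
            apply mul_le_mul _ h5 (by positivity) (by positivity)
            exact mul_le_mul_of_nonneg_left h4 h6
        _ = _ := by ring
    · have h3 : wt T d N x y (insert e D) g = 0 := by
        unfold wt
        rw [if_neg h2]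
      rw [h3]
      have := wt_nonneg T d N x y hN hx0.le hy0.le D g
      positivity
  · rw [wt_insert_not_has T d N x y D g e h]
    have := wt_nonneg T d N x y hN hx0.le hy0.le D g
    nlinarith

theorem Anti.Dg {D : Finset (V × V)} (h : Anti D) (g : V → Option κ) : Anti (Dg D g) := by
  intro u v huv hvu
  unfold OG.Dg at huv hvu
  rw [mem_filter] at huv hvu
  exact h u v huv.1 hvu.1

theorem wt_insert_sat (hN : 0 < N) (hx : 1 ≤ x) (hy : 1 ≤ y) (D : Finset (V × V)) (hD : Anti D) (g : V → Option κ)
    (e : V × V) (hs : sat d D g e) :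
    wt T d N x y (insert e D) g ≤ wt T d N x y D g * x := by
  have hx0 : 0 < x := by linarith
  have hy0 : 0 < y := by linarith
  by_cases h : has g e
  · by_cases h2 : alive T (insert e D) g
    · have h3 : alive T D g := ((alive_insert T D g e).1 h2).2
      unfold wt
      rw [if_pos h2, if_pos h3, Dg_insert_has D g e h]
      have h4 : x ^ #(insert e (Dg D g)) ≤ x ^ #(Dg D g) * x := by
        rw [← pow_succ]
        exact pow_le_pow_right₀ hx (card_insert_le _ _)
      have h5 : y ^ mm d (insert e (Dg D g)) ≤ y ^ mm d (Dg D g) := by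
        apply pow_le_pow_right₀ hy
        rcases hs with hs | hs
        · exact mm_insert_sat d _ (hD.Dg g) e e.1 hs (Or.inl rfl)
        · exact mm_insert_sat d _ (hD.Dg g) e e.2 hs (Or.inr rfl)
      have h6 : 0 ≤ (1 / N) ^ sup' g := by positivity
      calc (1 / N) ^ sup' g * x ^ #(insert e (Dg D g)) * y ^ mm d (insert e (Dg D g))
          ≤ (1 / N) ^ sup' g * (x ^ #(Dg D g) * x) * (y ^ mm d (Dg D g)) := by
            apply mul_le_mul _ h5 (by positivity) (by positivity)
            exact mul_le_mul_of_nonneg_left h4 h6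
        _ = _ := by ring
    · have h3 : wt T d N x y (insert e D) g = 0 := by
        unfold wt
        rw [if_neg h2]
      rw [h3]
      have := wt_nonneg T d N x y hN hx0.le hy0.le D g
      positivity
  · rw [wt_insert_not_has T d N x y D g e h]
    have := wt_nonneg T d N x y hN hx0.le hy0.le D g
    nlinarith

/-- the saturation is inherited -/
theorem sat_insert (D : Finset (V × V)) (g : V → Option κ) (e e' : V × V) (h : sat d D g e) :
    sat d (insert e' D) g e := by
  have h1 : ∀ z : V, #(at' (OG.Dg D g) z) ≤ #(at' (OG.Dg (insert e' D) g) z) := by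
    intro z
    apply card_le_card
    unfold at' OG.Dg
    intro q hq
    rw [mem_filter, mem_filter] at hq ⊢
    rw [mem_insert]
    tauto
  rcases h with h | h
  · exact Or.inl (h.trans (h1 _))
  · exact Or.inr (h.trans (h1 _))

/-- removing the label of a point -/
noncomputable def rem (g : V → Option κ) (z : V) : V → Option κ := Function.update g z none

theorem has_rem (g : V → Option κ) (z : V) (e : V × V) : has (rem g z) e ↔ has g e ∧ e.1 ≠ z ∧ e.2 ≠ z := by
  unfold has rem
  by_cases h1 : e.1 = z
  · rw [h1]
    simp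
  · by_cases h2 : e.2 = z
    · rw [h2]
      simp
    · rw [Function.update_of_ne h1, Function.update_of_ne h2]
      tauto

theorem Dg_rem (D : Finset (V × V)) (g : V → Option κ) (z : V) : OG.Dg D (rem g z) = off (OG.Dg D g) z := by
  unfold OG.Dg off
  ext e
  rw [mem_filter, mem_filter, mem_filter, has_rem]
  tauto

theorem sup_rem (g : V → Option κ) (z : V) (h : (g z).isSome) : sup' g = sup' (rem g z) + 1 := by
  unfold sup'
  have h1 : (univ.filter fun u => (g u).isSome) = insert z (univ.filter fun u => (rem g z u).isSome) := by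
    ext u
    rw [mem_insert, mem_filter, mem_filter]
    unfold rem
    by_cases hu : u = z
    · rw [hu]
      simp [h]
    · rw [Function.update_of_ne hu]
      simp [hu]
  rw [h1, card_insert_of_notMem]
  rw [mem_filter]
  unfold rem
  simp

theorem alive_rem (D : Finset (V × V)) (g : V → Option κ) (z : V) (h : alive T D g) : alive T D (rem g z) := by
  intro e he a b ha hb
  unfold rem at ha hb
  by_cases h1 : e.1 = z
  · rw [h1] at ha
    simp at ha
  · by_cases h2 : e.2 = z
    · rw [h2] at hb
      simp at hb
    · rw [Function.update_of_ne h1] at ha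
      rw [Function.update_of_ne h2] at hb
      exact h e he a b ha hb

/-- the weight without a point of small degree -/
theorem wt_rem (hN : 0 < N) (hx : 1 ≤ x) (hy : 1 ≤ y) (D : Finset (V × V)) (g : V → Option κ)
    (z : V) (h : (g z).isSome) (hz : #(at' (OG.Dg D g) z) ≤ 2 * d) :
    wt T d N x y D g ≤ x ^ (2 * d) * y ^ d / N * wt T d N x y D (rem g z) := by
  have hx0 : 0 < x := by linarith
  have hy0 : 0 < y := by linarith
  by_cases h2 : alive T D g
  · unfold wt
    rw [if_pos h2, if_pos (alive_rem T D g z h2), Dg_rem, sup_rem g z h]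
    have h3 := card_split (OG.Dg D g) z
    have h4 := mm_off d (OG.Dg D g) z
    set A := OG.Dg D g with hA
    have h5 : x ^ #A ≤ x ^ #(off A z) * x ^ (2 * d) := by
      rw [← pow_add]
      exact pow_le_pow_right₀ hx (by omega)
    have h6 : y ^ mm d A ≤ y ^ mm d (off A z) * y ^ d := by
      rw [← pow_add]
      exact pow_le_pow_right₀ hy h4
    calc (1 / N) ^ (sup' (rem g z) + 1) * x ^ #A * y ^ mm d A
        ≤ (1 / N) ^ (sup' (rem g z) + 1) * (x ^ #(off A z) * x ^ (2 * d)) *
          (y ^ mm d (off A z) * y ^ d) := by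
          apply mul_le_mul _ h6 (by positivity) (by positivity)
          exact mul_le_mul_of_nonneg_left h5 (by positivity)
      _ = _ := by rw [pow_succ]; ring
  · have h3 : wt T d N x y D g = 0 := by
      unfold wt
      rw [if_neg h2]
    rw [h3]
    have := wt_nonneg T d N x y hN hx0.le hy0.le D (rem g z)
    positivity

end Pool.Agent.H186.OG
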