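import Mathlib

/-!
# A function of digraphs which grows only at arcs without a vertex of large degree
-/

set_option autoImplicit false

namespace Pool.Agent.H186.OG

open Classical Finset

/-- the sum of the `s` numbers `min (d, 2 d - i)`, `i < s` -/
def hs (d s : ℕ) : ℕ := ∑ i ∈ range s, min d (2 * d - i)

variable {V : Type}

/-- the arcs of `A` avoiding `S` -/
noncomputable def av (A : Finset (V × V)) (S : Finset V) : Finset (V × V) := A.filter fun p => p.1 ∉ S ∧ p.2 ∉ S

/-- the arcs of `A` at `x` -/
noncomputable def at' (A : Finset (V × V)) (x : V) : Finset (V × V) := A.filter fun p => p.1 = x ∨ p.2 = x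

/-- the arcs of `A` not at `x` -/
noncomputable def off (A : Finset (V × V)) (x : V) : Finset (V × V) := A.filter fun p => ¬ (p.1 = x ∨ p.2 = x)

/-- the minimum over `S` of the number of arcs avoiding `S` plus `hs d |S|` -/
noncomputable def mm [Fintype V] (d : ℕ) (A : Finset (V × V)) : ℕ :=
  (univ : Finset (Finset V)).inf' ⟨∅, mem_univ _⟩ fun S => #(av A S) + hs d #S

/-- no loops, at most one arc for every pair -/
def Anti (A : Finset (V × V)) : Prop := ∀ u v, (u, v) ∈ A → (v, u) ∉ A

theorem mm_le [Fintype V] (d : ℕ) (A : Finset (V × V)) (S : Finset V) : mm d A ≤ #(av A S) + hs d #S := by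
  unfold mm
  exact Finset.inf'_le _ (mem_univ S)

theorem exists_mm [Fintype V] (d : ℕ) (A : Finset (V × V)) : ∃ S : Finset V, mm d A = #(av A S) + hs d #S := by
  unfold mm
  obtain ⟨S, _, hS⟩ := Finset.exists_mem_eq_inf' (s := (univ : Finset (Finset V))) ⟨∅, mem_univ _⟩
    (fun S => #(av A S) + hs d #S)
  exact ⟨S, hS⟩

theorem hs_succ (d s : ℕ) : hs d (s + 1) = hs d s + min d (2 * d - s) := by
  unfold hs
  rw [sum_range_succ]

theorem mm_insert_le [Fintype V] (d : ℕ) (A : Finset (V × V)) (p : V × V) : mm d (insert p A) ≤ mm d A + 1 := by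
  obtain ⟨S, hS⟩ := exists_mm d A
  have h1 := mm_le d (insert p A) S
  have h2 : #(av (insert p A) S) ≤ #(av A S) + 1 := by
    have h3 : av (insert p A) S ⊆ insert p (av A S) := by
      intro q hq
      unfold av at hq ⊢
      rw [mem_filter, mem_insert] at hq
      rw [mem_insert, mem_filter]
      tauto
    exact (card_le_card h3).trans (card_insert_le _ _)
  omega

theorem card_split (A : Finset (V × V)) (x : V) : #A = #(off A x) + #(at' A x) := by
  unfold off at'
  rw [add_comm]
  exact (card_filter_add_card_filter_not _).symm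

theorem mm_off [Fintype V] (d : ℕ) (A : Finset (V × V)) (x : V) : mm d A ≤ mm d (off A x) + d := by
  obtain ⟨S, hS⟩ := exists_mm d (off A x)
  have h1 := mm_le d A (insert x S)
  have h2 : #(av A (insert x S)) ≤ #(av (off A x) S) := by
    apply card_le_card
    intro q hq
    unfold av at hq
    unfold av off
    rw [mem_filter, mem_insert, mem_insert] at hq
    rw [mem_filter, mem_filter]
    tauto
  have h3 : hs d #(insert x S) ≤ hs d #S + d := by
    by_cases hx : x ∈ S
    · rw [insert_eq_of_mem hx]
      omega
    · rw [card_insert_of_notMem hx, hs_succ]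
      omega
  omega

/-- few arcs at `x` meet a set not containing `x` -/
theorem at_card_le (A : Finset (V × V)) (hA : Anti A) (S : Finset V) (x : V) (hx : x ∉ S) :
    #(at' A x) ≤ #(at' (av A S) x) + #S := by
  have h1 : #((at' A x).filter fun p => ¬ (p.1 ∉ S ∧ p.2 ∉ S)) ≤ #S := by
    apply card_le_card_of_injOn (fun p => if p.1 = x then p.2 else p.1)
    · intro p hp
      rw [mem_coe, mem_filter] at hp
      unfold at' at hp
      rw [mem_filter] at hp
      rw [mem_coe]
      obtain ⟨⟨h1, h2⟩, h3⟩ := hp
      by_cases h4 : p.1 = x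
      · simp only [h4, if_true]
        rw [h4] at h3
        tauto
      · simp only [h4, if_false]
        have h5 : p.2 = x := by tauto
        rw [h5] at h3
        tauto
    · intro p hp q hq hpq
      rw [mem_coe, mem_filter] at hp hq
      unfold at' at hp hq
      rw [mem_filter] at hp hq
      obtain ⟨⟨h1, h2⟩, h3⟩ := hp
      obtain ⟨⟨k1, k2⟩, k3⟩ := hq
      obtain ⟨p1, p2⟩ := p
      obtain ⟨q1, q2⟩ := q
      dsimp only at *
      by_cases h4 : p1 = x
      · by_cases k4 : q1 = x
        · simp only [h4, k4, if_true] at hpq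
          rw [h4, k4, hpq]
        · simp only [h4, k4, if_true, if_false] at hpq
          have k5 : q2 = x := by tauto
          exfalso
          rw [h4, hpq] at h1
          rw [k5] at k1
          exact hA _ _ h1 k1
      · have h5 : p2 = x := by tauto
        by_cases k4 : q1 = x
        · simp only [h4, k4, if_true, if_false] at hpq
          exfalso
          rw [h5] at h1
          rw [k4, ← hpq] at k1
          exact hA _ _ h1 k1
        · simp only [h4, k4, if_false] at hpq
          have k5 : q2 = x := by tauto
          rw [h5, k5, hpq]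
  have h2 : (at' A x).filter (fun p => p.1 ∉ S ∧ p.2 ∉ S) ⊆ at' (av A S) x := by
    intro p hp
    unfold at' at hp
    unfold at' av
    rw [mem_filter, mem_filter] at hp
    rw [mem_filter, mem_filter]
    tauto
  have h3 := card_filter_add_card_filter_not (s := at' A x) (fun p => p.1 ∉ S ∧ p.2 ∉ S)
  have h4 := card_le_card h2
  omega

theorem mm_insert_sat [Fintype V] (d : ℕ) (A : Finset (V × V)) (hA : Anti A) (p : V × V) (x : V)
    (hx : 2 * d ≤ #(at' A x)) (hp : p.1 = x ∨ p.2 = x) : mm d (insert p A) ≤ mm d A := by
  obtain ⟨S, hS⟩ := exists_mm d A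
  have key : ∀ S' : Finset V, x ∈ S' → av (insert p A) S' = av A S' := by
    intro S' hxS
    unfold av
    rw [filter_insert, if_neg]
    rcases hp with h | h
    · rw [h]
      tauto
    · rw [h]
      tauto
  by_cases hxS : x ∈ S
  · have h1 := mm_le d (insert p A) S
    rw [key S hxS] at h1
    omega
  · have h1 := mm_le d (insert p A) (insert x S)
    rw [key _ (mem_insert_self _ _), card_insert_of_notMem hxS, hs_succ] at h1
    have h2 := at_card_le A hA S x hxS
    have h3 := card_split (av A S) x
    have h4 : av A (insert x S) ⊆ off (av A S) x := by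
      intro q hq
      unfold av at hq
      unfold av off
      rw [mem_filter, mem_insert, mem_insert] at hq
      rw [mem_filter, mem_filter]
      tauto
    have h5 := card_le_card h4
    omega

theorem hs_small (d : ℕ) : ∀ s : ℕ, s ≤ d → hs d s = d * s := by
  intro s
  induction s with
  | zero => intro _; simp [hs]
  | succ s ih =>
    intro h
    rw [hs_succ, ih (by omega), Nat.mul_succ]
    congr 1
    omega

theorem hs_large (d : ℕ) : ∀ j : ℕ, j ≤ d → 2 * hs d (d + j) + (d - j) * (d - j + 1) = 3 * d * d + d := by
  intro j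
  induction j with
  | zero =>
    intro _
    rw [add_zero, hs_small d d le_rfl, Nat.sub_zero]
    ring
  | succ j ih =>
    intro h
    have h1 := ih (by omega)
    have h2 : hs d (d + (j + 1)) = hs d (d + j) + (d - j) := by
      rw [← add_assoc, hs_succ]
      congr 1
      omega
    rw [h2]
    obtain ⟨r, hr⟩ : ∃ r, d = j + 1 + r := ⟨d - (j + 1), by omega⟩
    have h9 : d - j = r + 1 := by omega
    have h10 : d - (j + 1) = r := by omega
    rw [h9] at h1 ⊢
    rw [h10]
    nlinarith

theorem hs_lower (d k : ℕ) (s t : ℕ) (h1 : k ≤ s + t) (h2 : 2 * d + 1 ≤ k) :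
    3 * d * d + d ≤ 2 * hs d s + t * (t - 1) := by
  by_cases h3 : s ≤ d
  · rw [hs_small d s h3]
    obtain ⟨r, hr⟩ : ∃ r, d = s + r := ⟨d - s, by omega⟩
    have h4 : s + 2 * r + 1 ≤ t := by omega
    have h5 : s + 2 * r ≤ t - 1 := by omega
    have h6 := Nat.mul_le_mul h4 h5
    rw [hr]
    nlinarith
  · by_cases h4 : s ≤ 2 * d
    · obtain ⟨j, hj⟩ : ∃ j, s = d + j := ⟨s - d, by omega⟩
      have h5 := hs_large d j (by omega)
      rw [hj]
      have h6 : d - j + 1 ≤ t := by omega
      have h7 : d - j ≤ t - 1 := by omega
      have h8 := Nat.mul_le_mul h6 h7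
      have h9 : (d - j) * (d - j + 1) = (d - j + 1) * (d - j) := by ring
      omega
    · have h5 := hs_large d d le_rfl
      have h6 : hs d (d + d) ≤ hs d s := by
        unfold hs
        exact sum_le_sum_of_subset (range_subset_range.2 (by omega))
      have h10 : (d - d) * (d - d + 1) = 0 := by simp
      have h11 : 0 ≤ t * (t - 1) := Nat.zero_le _
      omega

end Pool.Agent.H186.OG
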