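import Pool.Agent.H186.OG.Lines
import Pool.Agent.H186.OG.Defs

/-!
# One round of the game
-/

set_option autoImplicit false

namespace Pool.Agent.H186.OG

open Classical Finset

variable {V κ : Type} [Fintype V] (T : κ → κ → Prop) (d : ℕ) (N x y δ : ℝ)

/-- the sign of an arc for a line -/
noncomputable def sg (T : κ → κ → Prop) (g : V → Option κ) (e : V × V) : ℝ := if okk T g e then 1 else -1

/-- the coefficient of an edge for a line -/
noncomputable def cc (d : ℕ) (δ : ℝ) (D : Finset (V × V)) (g : V → Option κ) (e : V × V) : ℝ :=
  if sat d D g e then 1 / 2 else 1 - δ / 2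

/-- the contribution of a line to the value of an arc -/
noncomputable def rr (D : Finset (V × V)) (e : V × V) (g : V → Option κ) : ℝ :=
  if has g e then sg T g e * cc d δ D g e * wt T d N x y D g else 0

/-- the error term -/
noncomputable def er (D : Finset (V × V)) (e1 e2 : V × V) (g : V → Option κ) : ℝ :=
  if has g e1 ∧ has g e2 then (if sat d D g e1 ∧ sat d D g e2 then 0 else 2 * wt T d N x y D g)
  else if has g e1 ∨ has g e2 then -(δ / 2) * wt T d N x y D g else 0

theorem line_single (hN : 0 < N) (hx : 1 ≤ x) (hy : 1 ≤ y) (hδ0 : 0 ≤ δ) (hδ : δ ≤ 1 / 10) (hx2 : x ≤ 3 / 2 - δ / 2)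
    (hxy : x * y ≤ 2 - δ) (D : Finset (V × V)) (hD : Anti D) (g : V → Option κ) (e : V × V) (h : has g e) :
    wt T d N x y (insert e D) g ≤ wt T d N x y D g + rr T d N x y δ D e g - δ / 2 * wt T d N x y D g := by
  have hw := wt_nonneg T d N x y hN (by linarith) (by linarith) D g
  unfold rr sg cc
  rw [if_pos h]
  by_cases ho : okk T g e
  · rw [if_pos ho]
    by_cases hs : sat d D g e
    · rw [if_pos hs]
      have h1 := wt_insert_sat T d N x y hN hx hy D hD g e hs
      nlinarith
    · rw [if_neg hs]
      have h1 := wt_insert_le T d N x y hN hx hy D g e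
      nlinarith
  · rw [if_neg ho, wt_insert_not_ok T d N x y D g e ho]
    by_cases hs : sat d D g e
    · rw [if_pos hs]
      nlinarith
    · rw [if_neg hs]
      nlinarith

theorem Anti.insert {D : Finset (V × V)} (hD : Anti D) {u v : V} (h : Free D u v) : Anti (insert (u, v) D) := by
  intro a b hab hba
  rw [mem_insert] at hab hba
  rcases hab with hab | hab <;> rcases hba with hba | hba
  · rw [Prod.mk.injEq] at hab hba
    exact h.1 (hab.1.symm.trans hba.2)
  · rw [Prod.mk.injEq] at hab
    rw [hab.1, hab.2] at hba
    exact h.2.2 hba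
  · rw [Prod.mk.injEq] at hba
    rw [hba.1, hba.2] at hab
    exact h.2.2 hab
  · exact hD a b hab hba

theorem line_round (hN : 0 < N) (hx : 1 ≤ x) (hy : 1 ≤ y) (hδ0 : 0 ≤ δ) (hδ : δ ≤ 1 / 10) (hx2 : x ≤ 3 / 2 - δ / 2)
    (hxx : x * x ≤ 2) (hxy : x * y ≤ 2 - δ) (D : Finset (V × V)) (hD : Anti D) (e1 e2 : V × V)
    (hD1 : Anti (insert e1 D)) (g : V → Option κ) :
    wt T d N x y (insert e2 (insert e1 D)) g ≤
      wt T d N x y D g + rr T d N x y δ D e1 g + rr T d N x y δ D e2 g + er T d N x y δ D e1 e2 g := by
  have hx0 : 0 < x := by linarith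
  have hy0 : 0 < y := by linarith
  have hw := wt_nonneg T d N x y hN hx0.le hy0.le D g
  by_cases h1 : has g e1
  · by_cases h2 : has g e2
    · -- both
      unfold er
      rw [if_pos ⟨h1, h2⟩]
      by_cases ho1 : okk T g e1
      · by_cases ho2 : okk T g e2
        · by_cases hs : sat d D g e1 ∧ sat d D g e2
          · rw [if_pos hs]
            have k1 := wt_insert_sat T d N x y hN hx hy D hD g e1 hs.1
            have k2 := wt_insert_sat T d N x y hN hx hy (insert e1 D) hD1 g e2 (sat_insert d D g e2 e1 hs.2)
            unfold rr sg cc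
            rw [if_pos h1, if_pos h2, if_pos ho1, if_pos ho2, if_pos hs.1, if_pos hs.2]
            have k3 : wt T d N x y (insert e1 D) g * x ≤ wt T d N x y D g * x * x :=
              mul_le_mul_of_nonneg_right k1 hx0.le
            nlinarith
          · rw [if_neg hs]
            have k1 := wt_insert_le T d N x y hN hx hy D g e1
            have k2 := wt_insert_le T d N x y hN hx hy (insert e1 D) g e2
            have hxy0 : 0 ≤ x * y := by positivity
            have k3 : wt T d N x y (insert e1 D) g * (x * y) ≤ wt T d N x y D g * (x * y) * (x * y) :=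
              mul_le_mul_of_nonneg_right k1 hxy0
            have k4 : (x * y) * (x * y) ≤ 4 := by nlinarith
            have k5 : wt T d N x y (insert e2 (insert e1 D)) g ≤ 4 * wt T d N x y D g := by nlinarith
            have k6 : ∀ e, okk T g e → has g e → 1 / 2 * wt T d N x y D g ≤ rr T d N x y δ D e g := by
              intro e ho hh
              unfold rr sg cc
              rw [if_pos hh, if_pos ho]
              split_ifs <;> nlinarith
            have k7 := k6 e1 ho1 h1
            have k8 := k6 e2 ho2 h2
            linarith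
        · rw [wt_insert_not_ok T d N x y _ g e2 ho2]
          unfold rr sg cc
          rw [if_pos h1, if_pos h2, if_pos ho1, if_neg ho2]
          split_ifs <;> first | nlinarith | (exfalso; tauto)
      · have h0 : wt T d N x y (insert e2 (insert e1 D)) g = 0 := by
          unfold wt
          rw [if_neg]
          rw [alive_insert, alive_insert]
          tauto
        rw [h0]
        unfold rr sg cc
        rw [if_pos h1, if_pos h2, if_neg ho1]
        split_ifs <;> first | nlinarith | (exfalso; tauto)
    · -- only the first
      rw [wt_insert_not_has T d N x y _ g e2 h2]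
      have k1 := line_single T d N x y δ hN hx hy hδ0 hδ hx2 hxy D hD g e1 h1
      unfold er
      rw [if_neg (by tauto), if_pos (Or.inl h1)]
      have k2 : rr T d N x y δ D e2 g = 0 := by
        unfold rr
        rw [if_neg h2]
      linarith
  · have k0 : rr T d N x y δ D e1 g = 0 := by
      unfold rr
      rw [if_neg h1]
    by_cases h2 : has g e2
    · rw [insert_comm, wt_insert_not_has T d N x y _ g e1 h1]
      have k1 := line_single T d N x y δ hN hx hy hδ0 hδ hx2 hxy D hD g e2 h2
      unfold er
      rw [if_neg (by tauto), if_pos (Or.inr h2)]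
      linarith
    · rw [wt_insert_not_has T d N x y _ g e2 h2, wt_insert_not_has T d N x y _ g e1 h1]
      have k2 : rr T d N x y δ D e2 g = 0 := by
        unfold rr
        rw [if_neg h2]
      unfold er
      rw [if_neg (by tauto), if_neg (by tauto)]
      linarith

end Pool.Agent.H186.OG
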