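import Pool.Agent.H186.OG.Round

/-!
# The sum over the lines
-/

set_option autoImplicit false

namespace Pool.Agent.H186.OG

open Classical Finset

variable {V κ : Type} [Fintype V] [Fintype κ]

theorem sum_rem (z : V) (f : (V → Option κ) → ℝ) (hf : ∀ g, 0 ≤ f g) :
    ∑ g : V → Option κ, (if (g z).isSome then f (rem g z) else 0) ≤ Fintype.card κ * ∑ g : V → Option κ, f g := by
  have h1 : ∀ g : V → Option κ, (if (g z).isSome then f (rem g z) else 0) =
      ∑ a : κ, (if g z = some a then f (rem g z) else 0) := by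
    intro g
    rcases h : g z with _ | b
    · simp
    · simp
  rw [sum_congr rfl fun g _ => h1 g, sum_comm]
  have h2 : ∀ a ∈ (univ : Finset κ), ∑ g : V → Option κ, (if g z = some a then f (rem g z) else 0) ≤
      ∑ g : V → Option κ, f g := by
    intro a _
    rw [← sum_filter]
    have h3 : Set.InjOn (fun g : V → Option κ => rem g z) ((univ.filter fun g : V → Option κ => g z = some a) : Set _) := by
      intro g hg g' hg' hgg
      rw [mem_coe, mem_filter] at hg hg'
      funext u
      by_cases hu : u = z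
      · rw [hu, hg.2, hg'.2]
      · have h4 := congrFun hgg u
        simp only [rem] at h4
        rw [Function.update_of_ne hu, Function.update_of_ne hu] at h4
        exact h4
    rw [← sum_image (f := f) h3]
    exact sum_le_sum_of_subset_of_nonneg (subset_univ _) (fun g _ _ => hf g)
  calc ∑ a : κ, ∑ g : V → Option κ, (if g z = some a then f (rem g z) else 0)
      ≤ ∑ a : κ, ∑ g : V → Option κ, f g := sum_le_sum h2
    _ = _ := by rw [sum_const, card_univ, nsmul_eq_mul]

/-- exactly one of the two arcs is contained in the line -/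
def one (g : V → Option κ) (e1 e2 : V × V) : Prop := (has g e1 ∨ has g e2) ∧ ¬ (has g e1 ∧ has g e2)

omit [Fintype κ] in
theorem exists_rem (d : ℕ) (D : Finset (V × V)) (e1 e2 : V × V) (h11 : e1.1 ≠ e1.2) (h22 : e2.1 ≠ e2.2)
    (hne : ¬ (e1.1 = e2.1 ∧ e1.2 = e2.2)) (hne' : ¬ (e1.1 = e2.2 ∧ e1.2 = e2.1)) (g : V → Option κ)
    (h1 : has g e1) (h2 : has g e2) (hs : ¬ (sat d D g e1 ∧ sat d D g e2)) :
    ∃ z ∈ ({e1.1, e1.2, e2.1, e2.2} : Finset V), (g z).isSome ∧ #(at' (OG.Dg D g) z) ≤ 2 * d ∧ one (rem g z) e1 e2 := by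
  have hnat : (¬ sat d D g e1) ∨ (¬ sat d D g e2) := by tauto
  have mem1 : e1.1 ∈ ({e1.1, e1.2, e2.1, e2.2} : Finset V) := by simp
  have mem2 : e1.2 ∈ ({e1.1, e1.2, e2.1, e2.2} : Finset V) := by simp
  have mem3 : e2.1 ∈ ({e1.1, e1.2, e2.1, e2.2} : Finset V) := by simp
  have mem4 : e2.2 ∈ ({e1.1, e1.2, e2.1, e2.2} : Finset V) := by simp
  rcases hnat with hs | hs
  · unfold sat at hs
    push Not at hs
    by_cases h3 : e1.1 ≠ e2.1 ∧ e1.1 ≠ e2.2
    · refine ⟨e1.1, mem1, h1.1, hs.1.le, ?_, ?_⟩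
      · right
        rw [has_rem]
        exact ⟨h2, Ne.symm h3.1, Ne.symm h3.2⟩
      · rw [has_rem, has_rem]
        tauto
    · have h4 : e1.2 ≠ e2.1 ∧ e1.2 ≠ e2.2 := by
        constructor
        · intro h5
          apply h3
          constructor
          · intro h6
            exact h11 (h6.trans h5.symm)
          · intro h6
            exact hne' ⟨h6, h5⟩
        · intro h5
          apply h3
          constructor
          · intro h6
            exact hne ⟨h6, h5⟩
          · intro h6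
            exact h11 (h6.trans h5.symm)
      refine ⟨e1.2, mem2, h1.2, hs.2.le, ?_, ?_⟩
      · right
        rw [has_rem]
        exact ⟨h2, Ne.symm h4.1, Ne.symm h4.2⟩
      · rw [has_rem, has_rem]
        tauto
  · unfold sat at hs
    push Not at hs
    by_cases h3 : e2.1 ≠ e1.1 ∧ e2.1 ≠ e1.2
    · refine ⟨e2.1, mem3, h2.1, hs.1.le, ?_, ?_⟩
      · left
        rw [has_rem]
        exact ⟨h1, Ne.symm h3.1, Ne.symm h3.2⟩
      · rw [has_rem, has_rem]
        tauto
    · have h4 : e2.2 ≠ e1.1 ∧ e2.2 ≠ e1.2 := by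
        constructor
        · intro h5
          apply h3
          constructor
          · intro h6
            exact h22 (h6.trans h5.symm)
          · intro h6
            exact hne' ⟨h5.symm, h6.symm⟩
        · intro h5
          apply h3
          constructor
          · intro h6
            exact hne ⟨h6.symm, h5.symm⟩
          · intro h6
            exact h22 (h6.trans h5.symm)
      refine ⟨e2.2, mem4, h2.2, hs.2.le, ?_, ?_⟩
      · left
        rw [has_rem]
        exact ⟨h1, Ne.symm h4.1, Ne.symm h4.2⟩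
      · rw [has_rem, has_rem]
        tauto

variable (T : κ → κ → Prop) (d : ℕ) (N x y δ : ℝ)

theorem sum_er (hN : 0 < N) (hx : 1 ≤ x) (hy : 1 ≤ y) 
    (hδ : 16 * Fintype.card κ * (x ^ (2 * d) * y ^ d / N) ≤ δ) (D : Finset (V × V)) (e1 e2 : V × V) (h11 : e1.1 ≠ e1.2)
    (h22 : e2.1 ≠ e2.2) (hne : ¬ (e1.1 = e2.1 ∧ e1.2 = e2.2)) (hne' : ¬ (e1.1 = e2.2 ∧ e1.2 = e2.1)) :
    ∑ g : V → Option κ, er T d N x y δ D e1 e2 g ≤ 0 := by
  have hx0 : 0 < x := by linarith
  have hy0 : 0 < y := by linarith
  have hw := wt_nonneg T d N x y hN hx0.le hy0.le D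
  have hq : 0 ≤ x ^ (2 * d) * y ^ d / N := by positivity
  obtain ⟨X, hX⟩ : ∃ X : Finset V, X = {e1.1, e1.2, e2.1, e2.2} := ⟨_, rfl⟩
  have hX4 : #X ≤ 4 := by
    rw [hX]
    exact card_le_four
  obtain ⟨F, hF⟩ : ∃ F : (V → Option κ) → ℝ, F = fun g => if one g e1 e2 then wt T d N x y D g else 0 := ⟨_, rfl⟩
  have hF0 : ∀ g, 0 ≤ F g := by
    intro g
    rw [hF]
    dsimp only
    split_ifs
    · exact hw g
    · exact le_rfl
  have h1 : ∀ g : V → Option κ, er T d N x y δ D e1 e2 g ≤
      (∑ z ∈ X, 2 * (x ^ (2 * d) * y ^ d / N) * (if (g z).isSome then F (rem g z) else 0)) - δ / 2 * F g := by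
    intro g
    have hpos : ∀ z ∈ X, 0 ≤ 2 * (x ^ (2 * d) * y ^ d / N) * (if (g z).isSome then F (rem g z) else 0) := by
      intro z _
      apply mul_nonneg (by positivity)
      split_ifs
      · exact hF0 _
      · exact le_rfl
    have hsum := sum_nonneg hpos
    unfold er
    by_cases hb : has g e1 ∧ has g e2
    · rw [if_pos hb]
      have hF1 : F g = 0 := by
        rw [hF]
        dsimp only
        rw [if_neg]
        unfold one
        tauto
      rw [hF1]
      by_cases hs : sat d D g e1 ∧ sat d D g e2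
      · rw [if_pos hs]
        linarith
      · rw [if_neg hs]
        obtain ⟨z, hz, k1, k2, k3⟩ := exists_rem d D e1 e2 h11 h22 hne hne' g hb.1 hb.2 hs
        rw [← hX] at hz
        have k4 := wt_rem T d N x y hN hx hy D g z k1 k2
        have k5 : F (rem g z) = wt T d N x y D (rem g z) := by
          rw [hF]
          dsimp only
          rw [if_pos k3]
        have k6 := single_le_sum hpos hz
        rw [if_pos k1, k5] at k6
        linarith
    · rw [if_neg hb]
      by_cases ho : has g e1 ∨ has g e2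
      · rw [if_pos ho]
        have hF1 : F g = wt T d N x y D g := by
          rw [hF]
          dsimp only
          rw [if_pos]
          exact ⟨ho, hb⟩
        rw [hF1]
        linarith
      · rw [if_neg ho]
        have hF1 : F g = 0 := by
          rw [hF]
          dsimp only
          rw [if_neg]
          unfold one
          tauto
        rw [hF1]
        linarith
  have h2 := sum_le_sum (s := (univ : Finset (V → Option κ))) fun g _ => h1 g
  rw [sum_sub_distrib, ← mul_sum, sum_comm] at h2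
  have h3 : ∑ z ∈ X, ∑ g : V → Option κ, 2 * (x ^ (2 * d) * y ^ d / N) * (if (g z).isSome then F (rem g z) else 0) ≤
      ∑ z ∈ X, 2 * (x ^ (2 * d) * y ^ d / N) * (Fintype.card κ * ∑ g : V → Option κ, F g) := by
    apply sum_le_sum
    intro z _
    rw [← mul_sum]
    exact mul_le_mul_of_nonneg_left (sum_rem z F hF0) (by positivity)
  rw [sum_const, nsmul_eq_mul] at h3
  have h4 : 0 ≤ ∑ g : V → Option κ, F g := sum_nonneg fun g _ => hF0 g
  have h5 : (#X : ℝ) ≤ 4 := by exact_mod_cast hX4
  have h6 : (#X : ℝ) * (2 * (x ^ (2 * d) * y ^ d / N) * (Fintype.card κ * ∑ g : V → Option κ, F g)) ≤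
      4 * (2 * (x ^ (2 * d) * y ^ d / N) * (Fintype.card κ * ∑ g : V → Option κ, F g)) :=
    mul_le_mul_of_nonneg_right h5 (by positivity)
  have h7 : 4 * (2 * (x ^ (2 * d) * y ^ d / N) * (Fintype.card κ * ∑ g : V → Option κ, F g)) =
      (16 * Fintype.card κ * (x ^ (2 * d) * y ^ d / N)) / 2 * ∑ g : V → Option κ, F g := by ring
  have h8 : (16 * Fintype.card κ * (x ^ (2 * d) * y ^ d / N)) / 2 * ∑ g : V → Option κ, F g ≤
      δ / 2 * ∑ g : V → Option κ, F g := by
    apply mul_le_mul_of_nonneg_right _ h4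
    linarith
  linarith

/-- the potential -/
noncomputable def Phi (D : Finset (V × V)) : ℝ := ∑ g : V → Option κ, wt T d N x y D g

/-- the value of an arc -/
noncomputable def RR (D : Finset (V × V)) (e : V × V) : ℝ := ∑ g : V → Option κ, rr T d N x y δ D e g

theorem RR_rev (hT : IsTour T) (hN : 0 < N) (hx : 1 ≤ x) (hy : 1 ≤ y) (hδ : δ ≤ 2)
    (D : Finset (V × V)) (u v : V) : RR T d N x y δ D (u, v) + RR T d N x y δ D (v, u) ≤ 0 := by
  have hw := wt_nonneg T d N x y hN (by linarith) (by linarith) D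
  unfold RR
  rw [← sum_add_distrib]
  apply sum_nonpos
  intro g _
  unfold rr
  by_cases h1 : has g (u, v)
  · have h2 : has g (v, u) := ⟨h1.2, h1.1⟩
    rw [if_pos h1, if_pos h2]
    have h3 : cc d δ D g (u, v) = cc d δ D g (v, u) := by
      unfold cc sat
      rw [or_comm]
    have h4 : 0 ≤ cc d δ D g (v, u) := by
      unfold cc
      split_ifs
      · norm_num
      · linarith
    have h5 : sg T g (u, v) + sg T g (v, u) ≤ 0 := by
      unfold sg
      by_cases k1 : okk T g (u, v)
      · by_cases k2 : okk T g (v, u)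
        · exfalso
          obtain ⟨a, ha⟩ := Option.isSome_iff_exists.1 h1.1
          obtain ⟨b, hb⟩ := Option.isSome_iff_exists.1 h1.2
          have k3 := k1 a b ha hb
          have k4 := k2 b a hb ha
          by_cases hab : a = b
          · rw [hab] at k3
            exact hT.1 b k3
          · exact ((hT.2 a b hab).1 k3) k4
        · rw [if_pos k1, if_neg k2]
          norm_num
      · rw [if_neg k1]
        split_ifs <;> norm_num
    rw [h3]
    have h6 : sg T g (u, v) * cc d δ D g (v, u) * wt T d N x y D g +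
        sg T g (v, u) * cc d δ D g (v, u) * wt T d N x y D g =
        (sg T g (u, v) + sg T g (v, u)) * (cc d δ D g (v, u) * wt T d N x y D g) := by ring
    rw [h6]
    exact mul_nonpos_of_nonpos_of_nonneg h5 (mul_nonneg h4 (hw g))
  · have h2 : ¬ has g (v, u) := fun h => h1 ⟨h.2, h.1⟩
    rw [if_neg h1, if_neg h2]
    norm_num

theorem Phi_round (hT : IsTour T) (hN : 0 < N) (hx : 1 ≤ x) (hy : 1 ≤ y) (hδ0 : 0 ≤ δ) (hδ : δ ≤ 1 / 10)
    (hx2 : x ≤ 3 / 2 - δ / 2) (hxx : x * x ≤ 2) (hxy : x * y ≤ 2 - δ)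
    (hδk : 16 * Fintype.card κ * (x ^ (2 * d) * y ^ d / N) ≤ δ) (D : Finset (V × V)) (hD : Anti D) (u v u' v' : V)
    (h1 : Free D u v) (h2 : Free (insert (u, v) D) u' v')
    (hmin : ∀ a b, Free D a b → RR T d N x y δ D (u, v) ≤ RR T d N x y δ D (a, b)) :
    Phi T d N x y (insert (u', v') (insert (u, v) D)) ≤ Phi T d N x y D := by
  have hD1 : Anti (insert (u, v) D) := hD.insert h1
  have k1 := sum_le_sum (s := (univ : Finset (V → Option κ))) fun g _ =>
    line_round T d N x y δ hN hx hy hδ0 hδ hx2 hxx hxy D hD (u, v) (u', v') hD1 g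
  rw [sum_add_distrib, sum_add_distrib, sum_add_distrib] at k1
  have hne : ¬ ((u, v).1 = (u', v').1 ∧ (u, v).2 = (u', v').2) := by
    rintro ⟨h3, h4⟩
    dsimp only at h3 h4
    apply h2.2.1
    rw [h3, h4]
    exact mem_insert_self _ _
  have hne' : ¬ ((u, v).1 = (u', v').2 ∧ (u, v).2 = (u', v').1) := by
    rintro ⟨h3, h4⟩
    dsimp only at h3 h4
    apply h2.2.2
    rw [h3, h4]
    exact mem_insert_self _ _
  have k2 := sum_er T d N x y δ hN hx hy hδk D (u, v) (u', v') h1.1 h2.1 hne hne'
  have hfree : Free D v' u' :=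
    ⟨h2.1.symm, fun h => h2.2.2 (mem_insert_of_mem h), fun h => h2.2.1 (mem_insert_of_mem h)⟩
  have k3 := hmin v' u' hfree
  have k4 := RR_rev T d N x y δ hT hN hx hy (by linarith) D u' v'
  unfold Phi
  unfold RR at k3 k4
  linarith

theorem Phi_single (hT : IsTour T) (hN : 0 < N) (hx : 1 ≤ x) (hy : 1 ≤ y) (hδ0 : 0 ≤ δ) (hδ : δ ≤ 1 / 10)
    (hx2 : x ≤ 3 / 2 - δ / 2) (hxy : x * y ≤ 2 - δ) (D : Finset (V × V)) (hD : Anti D) (u v : V)
    (h1 : Free D u v) (hmin : ∀ a b, Free D a b → RR T d N x y δ D (u, v) ≤ RR T d N x y δ D (a, b)) :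
    Phi T d N x y (insert (u, v) D) ≤ Phi T d N x y D := by
  have hw := wt_nonneg T d N x y hN (by linarith) (by linarith) D
  have h2 : ∀ g : V → Option κ, wt T d N x y (insert (u, v) D) g ≤
      wt T d N x y D g + rr T d N x y δ D (u, v) g := by
    intro g
    by_cases h3 : has g (u, v)
    · have h4 := line_single T d N x y δ hN hx hy hδ0 hδ hx2 hxy D hD g (u, v) h3
      have h5 := hw g
      nlinarith
    · rw [wt_insert_not_has T d N x y D g (u, v) h3]
      unfold rr
      rw [if_neg h3]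
      linarith
  have k1 := sum_le_sum (s := (univ : Finset (V → Option κ))) fun g _ => h2 g
  rw [sum_add_distrib] at k1
  have k3 := hmin v u ⟨h1.1.symm, h1.2.2, h1.2.1⟩
  have k4 := RR_rev T d N x y δ hT hN hx hy (by linarith) D u v
  unfold Phi
  unfold RR at k3 k4
  linarith

end Pool.Agent.H186.OG
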