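import Pool.Agent.H186.OG.Sum

/-!
# OBreaker wins if the potential is small
-/

set_option autoImplicit false

namespace Pool.Agent.H186.OG

open Classical Finset

variable {V κ : Type} [Fintype V] [Fintype κ] (T : κ → κ → Prop) (d : ℕ) (N x y δ : ℝ)

theorem copy_weight (hT : IsTour T) (hN : 0 < N) (hx : 1 ≤ x) (hy : 1 ≤ y) (hd : 2 * d + 1 ≤ Fintype.card κ)
    (D : Finset (V × V)) (hD : Anti D) (h : HasCopy T D) :
    (1 / N) ^ (2 * Fintype.card κ) * x ^ (Fintype.card κ * (Fintype.card κ - 1)) * y ^ (3 * d * d + d) ≤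
      Phi T d N x y D ^ 2 := by
  have hx0 : 0 < x := by linarith
  have hy0 : 0 < y := by linarith
  obtain ⟨f, hf, hfT⟩ := h
  have hinv := hf.isPartialInv
  obtain ⟨g, hg⟩ : ∃ g : V → Option κ, ∀ u a, g u = some a ↔ f a = u :=
    ⟨Function.partialInv f, fun u a => hinv a u⟩
  have hal : alive T D g := by
    intro e he a b ha hb
    rw [hg] at ha hb
    by_contra hTab
    have he' : (f a, f b) ∈ D := by rw [ha, hb]; exact he
    by_cases hab : a = b
    · rw [hab] at he'
      exact hD _ _ he' he'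
    · have h1 : T b a := by
        by_contra h2
        exact hTab ((hT.2 a b hab).2 h2)
      exact hD _ _ he' (hfT b a h1)
  obtain ⟨P, hP⟩ : ∃ P : Finset V, P = univ.image f := ⟨_, rfl⟩
  have hPc : #P = Fintype.card κ := by
    rw [hP, card_image_of_injective _ hf, card_univ]
  have hPs : (univ.filter fun u => (g u).isSome) = P := by
    ext u
    rw [mem_filter, hP, mem_image, Option.isSome_iff_exists]
    constructor
    · rintro ⟨_, a, ha⟩
      exact ⟨a, mem_univ _, (hg u a).1 ha⟩
    · rintro ⟨a, _, ha⟩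
      exact ⟨mem_univ _, a, (hg u a).2 ha⟩
  have hpair : ∀ u ∈ P, ∀ v ∈ P, u ≠ v → (u, v) ∈ OG.Dg D g ∨ (v, u) ∈ OG.Dg D g := by
    intro u hu v hv huv
    rw [hP, mem_image] at hu hv
    obtain ⟨a, _, rfl⟩ := hu
    obtain ⟨b, _, rfl⟩ := hv
    have hab : a ≠ b := fun h => huv (by rw [h])
    have h1 : (g (f a)).isSome := by rw [(hg (f a) a).2 rfl]; rfl
    have h2 : (g (f b)).isSome := by rw [(hg (f b) b).2 rfl]; rfl
    unfold OG.Dg
    rw [mem_filter, mem_filter]
    by_cases h3 : T a b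
    · exact Or.inl ⟨hfT a b h3, h1, h2⟩
    · right
      refine ⟨hfT b a ?_, h2, h1⟩
      by_contra h4
      exact h3 ((hT.2 a b hab).2 h4)
  have k1 := mm_lower d (Fintype.card κ) (OG.Dg D g) P hPc hd hpair
  have k2 := pairs_card (OG.Dg D g) P hpair
  rw [hPc] at k2
  have k3 : wt T d N x y D g ≤ Phi T d N x y D :=
    single_le_sum (f := fun g => wt T d N x y D g) (fun g _ => wt_nonneg T d N x y hN hx0.le hy0.le D g) (mem_univ g)
  have k4 := wt_nonneg T d N x y hN hx0.le hy0.le D g
  have k5 : wt T d N x y D g ^ 2 ≤ Phi T d N x y D ^ 2 := pow_le_pow_left₀ k4 k3 2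
  refine le_trans ?_ k5
  unfold wt
  rw [if_pos hal]
  have k6 : sup' g = Fintype.card κ := by
    unfold sup'
    rw [hPs, hPc]
  rw [k6, mul_pow, mul_pow, ← pow_mul, ← pow_mul, ← pow_mul, mul_comm (Fintype.card κ) 2]
  have k7 : x ^ (Fintype.card κ * (Fintype.card κ - 1)) ≤ x ^ (#(OG.Dg D g) * 2) :=
    pow_le_pow_right₀ hx (by omega)
  have k8 : y ^ (3 * d * d + d) ≤ y ^ (mm d (OG.Dg D g) * 2) := pow_le_pow_right₀ hy (by omega)
  apply mul_le_mul _ k8 (by positivity) (by positivity)
  exact mul_le_mul_of_nonneg_left k7 (by positivity)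

theorem Phi_empty_le (hN : 0 < N) (hx : 1 ≤ x) (hy : 1 ≤ y) :
    Phi T d N x y (∅ : Finset (V × V)) ≤ (1 + Fintype.card κ / N) ^ Fintype.card V := by
  have h1 : ∀ g : V → Option κ, wt T d N x y (∅ : Finset (V × V)) g ≤ ∏ u : V, (if (g u).isSome then 1 / N else 1) := by
    intro g
    unfold wt
    have h2 : OG.Dg (∅ : Finset (V × V)) g = ∅ := by unfold OG.Dg; rw [filter_empty]
    have h3 : mm d (∅ : Finset (V × V)) = 0 := by
      have h4 := mm_le d (∅ : Finset (V × V)) (∅ : Finset V)
      have h5 : #(av (∅ : Finset (V × V)) (∅ : Finset V)) = 0 := by unfold av; rw [filter_empty, card_empty]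
      have h6 : hs d #(∅ : Finset V) = 0 := by simp [hs]
      omega
    have h4 : alive T (∅ : Finset (V × V)) g := by
      intro e he
      exact absurd he (notMem_empty _)
    rw [if_pos h4, h2, h3, card_empty, pow_zero, pow_zero, mul_one, mul_one]
    apply le_of_eq
    rw [prod_ite, prod_const, prod_const_one, mul_one]
    rfl
  have h2 : ∑ g : V → Option κ, ∏ u : V, (if (g u).isSome then 1 / N else (1 : ℝ)) =
      ∏ _u : V, (1 + Fintype.card κ / N) := by
    have h3 := (prod_univ_sum (fun _ : V => (univ : Finset (Option κ)))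
      (fun _ o => if o.isSome then 1 / N else (1 : ℝ))).symm
    rw [Fintype.piFinset_univ] at h3
    rw [h3]
    apply prod_congr rfl
    intro u _
    rw [Fintype.sum_option]
    simp
    ring
  calc Phi T d N x y (∅ : Finset (V × V)) ≤ ∑ g : V → Option κ, ∏ u : V, (if (g u).isSome then 1 / N else (1 : ℝ)) :=
        sum_le_sum fun g _ => h1 g
    _ = ∏ _u : V, (1 + Fintype.card κ / N) := h2
    _ = _ := by rw [prod_const, card_univ]

/-- the number of free arcs -/
noncomputable def fr (D : Finset (V × V)) : ℕ := #(univ.filter fun p : V × V => Free D p.1 p.2)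

omit [Fintype κ] in
theorem fr_lt (D : Finset (V × V)) (u v : V) (h : Free D u v) : fr (insert (u, v) D) < fr D := by
  unfold fr
  apply card_lt_card
  rw [ssubset_iff_of_subset]
  · refine ⟨(u, v), ?_, ?_⟩
    · rw [mem_filter]
      exact ⟨mem_univ _, h⟩
    · rw [mem_filter]
      rintro ⟨_, h2⟩
      exact h2.2.1 (mem_insert_self _ _)
  · intro p hp
    rw [mem_filter] at hp ⊢
    exact ⟨mem_univ _, hp.2.1, fun h3 => hp.2.2.1 (mem_insert_of_mem h3), fun h3 => hp.2.2.2 (mem_insert_of_mem h3)⟩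

theorem wins_false (hT : IsTour T) (hN : 0 < N) (hx : 1 ≤ x) (hy : 1 ≤ y) (hδ0 : 0 ≤ δ) (hδ : δ ≤ 1 / 10)
    (hx2 : x ≤ 3 / 2 - δ / 2) (hxx : x * x ≤ 2) (hxy : x * y ≤ 2 - δ)
    (hδk : 16 * Fintype.card κ * (x ^ (2 * d) * y ^ d / N) ≤ δ) (hd : 2 * d + 1 ≤ Fintype.card κ) (B : ℝ)
    (hB : B ^ 2 < (1 / N) ^ (2 * Fintype.card κ) * x ^ (Fintype.card κ * (Fintype.card κ - 1)) * y ^ (3 * d * d + d)) :
    ∀ m : ℕ, ∀ D : Finset (V × V), Anti D → Phi T d N x y D ≤ B → fr D ≤ m → OBWins (HasCopy T) false D := by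
  have hw := fun D : Finset (V × V) => wt_nonneg (κ := κ) T d N x y hN (by linarith) (by linarith) D
  have hPhi : ∀ D : Finset (V × V), 0 ≤ Phi T d N x y D := fun D => sum_nonneg fun g _ => hw D g
  have hno : ∀ D : Finset (V × V), Anti D → Phi T d N x y D ≤ B → ¬ HasCopy T D := by
    intro D hD hDB hcopy
    have h1 := copy_weight T d N x y hT hN hx hy hd D hD hcopy
    have h2 : Phi T d N x y D ^ 2 ≤ B ^ 2 := pow_le_pow_left₀ (hPhi D) hDB 2
    linarith
  intro m
  induction m with
  | zero =>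
    intro D hD hDB hm
    apply OBWins.done
    · intro u v huv
      have := fr_lt D u v huv
      omega
    · exact hno D hD hDB
  | succ m ih =>
    intro D hD hDB hm
    by_cases hfree : ∃ u v, Free D u v
    · obtain ⟨u0, v0, h0⟩ := hfree
      obtain ⟨p, hp, hmin⟩ := exists_min_image (univ.filter fun p : V × V => Free D p.1 p.2)
        (fun p => RR T d N x y δ D p) ⟨(u0, v0), by rw [mem_filter]; exact ⟨mem_univ _, h0⟩⟩
      obtain ⟨u, v⟩ := p
      rw [mem_filter] at hp
      have huv : Free D u v := hp.2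
      have hmin' : ∀ a b, Free D a b → RR T d N x y δ D (u, v) ≤ RR T d N x y δ D (a, b) := by
        intro a b hab
        exact hmin (a, b) (by rw [mem_filter]; exact ⟨mem_univ _, hab⟩)
      apply OBWins.breaker D u v huv
      have hD1 := hD.insert huv
      have hB1 := Phi_single T d N x y δ hT hN hx hy hδ0 hδ hx2 hxy D hD u v huv hmin'
      by_cases hfree2 : ∃ u' v', Free (insert (u, v) D) u' v'
      · apply OBWins.maker _ hfree2
        intro u' v' h2
        have hlt1 := fr_lt D u v huv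
        have hlt2 := fr_lt _ u' v' h2
        apply ih _ (hD1.insert h2) _ (by omega)
        exact (Phi_round T d N x y δ hT hN hx hy hδ0 hδ hx2 hxx hxy hδk D hD u v u' v' huv h2 hmin').trans hDB
      · apply OBWins.done
        · intro u' v' h2
          exact hfree2 ⟨u', v', h2⟩
        · exact hno _ hD1 (hB1.trans hDB)
    · apply OBWins.done
      · intro u' v' h2
        exact hfree ⟨u', v', h2⟩
      · exact hno D hD hDB

/-- OBreaker wins the game if the potential of a copy is larger than twice the first potential -/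
theorem wins_true (hT : IsTour T) (hN : 0 < N) (hNV : (Fintype.card V : ℝ) ≤ N) (hx : 1 ≤ x) (hy : 1 ≤ y)
    (hδ0 : 0 ≤ δ) (hδ : δ ≤ 1 / 10)
    (hx2 : x ≤ 3 / 2 - δ / 2) (hxx : x * x ≤ 2) (hxy : x * y ≤ 2 - δ)
    (hδk : 16 * Fintype.card κ * (x ^ (2 * d) * y ^ d / N) ≤ δ) (hd : 2 * d + 1 ≤ Fintype.card κ)
    (hB : 4 * Real.exp (2 * Fintype.card κ) <
      (1 / N) ^ (2 * Fintype.card κ) * x ^ (Fintype.card κ * (Fintype.card κ - 1)) * y ^ (3 * d * d + d)) :
    OBWins (HasCopy T) true (∅ : Finset (V × V)) := by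
  obtain ⟨B, hBdef⟩ : ∃ B : ℝ, B = 2 * Real.exp (Fintype.card κ) := ⟨_, rfl⟩
  have hB2 : B ^ 2 = 4 * Real.exp (2 * Fintype.card κ) := by
    rw [hBdef, mul_pow, ← Real.exp_nat_mul]
    norm_num
  have hexp0 : 0 < Real.exp (Fintype.card κ) := Real.exp_pos _
  have hw := fun D : Finset (V × V) => wt_nonneg (κ := κ) T d N x y hN (by linarith) (by linarith) D
  have hPhi : ∀ D : Finset (V × V), 0 ≤ Phi T d N x y D := fun D => sum_nonneg fun g _ => hw D g
  have hA0 : Anti (∅ : Finset (V × V)) := fun u v h => absurd h (notMem_empty _)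
  have h0 : Phi T d N x y (∅ : Finset (V × V)) ≤ Real.exp (Fintype.card κ) := by
    refine (Phi_empty_le T d N x y hN hx hy).trans ?_
    have h1 : 1 + Fintype.card κ / N ≤ Real.exp (Fintype.card κ / N) := by
      have := Real.add_one_le_exp ((Fintype.card κ : ℝ) / N)
      linarith
    have h2 : (0 : ℝ) ≤ 1 + Fintype.card κ / N := by positivity
    calc (1 + Fintype.card κ / N) ^ Fintype.card V ≤ Real.exp (Fintype.card κ / N) ^ Fintype.card V :=
          pow_le_pow_left₀ h2 h1 _
      _ = Real.exp (Fintype.card V * (Fintype.card κ / N)) := by rw [← Real.exp_nat_mul]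
      _ ≤ _ := by
        apply Real.exp_le_exp.2
        have h3 : (Fintype.card V : ℝ) * (Fintype.card κ / N) ≤ N * (Fintype.card κ / N) :=
          mul_le_mul_of_nonneg_right hNV (by positivity)
        have h4 : N * (Fintype.card κ / N) = Fintype.card κ := by field_simp
        linarith
  have hno : ¬ HasCopy T (∅ : Finset (V × V)) := by
    intro hcopy
    have h1 := copy_weight T d N x y hT hN hx hy hd _ hA0 hcopy
    have h2 : Phi T d N x y (∅ : Finset (V × V)) ^ 2 ≤ B ^ 2 := by
      apply pow_le_pow_left₀ (hPhi _)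
      rw [hBdef]
      linarith
    rw [hB2] at h2
    linarith
  by_cases hfree : ∃ u v, Free (∅ : Finset (V × V)) u v
  · apply OBWins.maker _ hfree
    intro u v huv
    apply wins_false T d N x y δ hT hN hx hy hδ0 hδ hx2 hxx hxy hδk hd B (by rw [hB2]; exact hB) _ _
      (hA0.insert huv) _ le_rfl
    rw [hBdef]
    have h1 : Phi T d N x y (insert (u, v) (∅ : Finset (V × V))) ≤ Phi T d N x y (∅ : Finset (V × V)) * (x * y) := by
      unfold Phi
      rw [sum_mul]
      exact sum_le_sum fun g _ => wt_insert_le T d N x y hN hx hy _ g _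
    have h2 := hPhi (∅ : Finset (V × V))
    have hxy0 : 0 ≤ x * y := by nlinarith
    nlinarith
  · apply OBWins.done
    · intro u v h2
      exact hfree ⟨u, v, h2⟩
    · exact hno

end Pool.Agent.H186.OG
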